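import Pool.Agent.Helper66.QL.Val
import Pool.Agent.Helper66.QL.Descend

/-!
# LS: lines on systems of forms, general lemmas

Generalisations of the files `FixPt`, `HomLine`, `Minor` of project QL (helper66) to any number of
unknowns, variables and any degree.
-/

set_option autoImplicit false

namespace Pool.Agent.Helper11.LS

open Polynomial

theorem fix {k : Type*} [Field k] {m : ℕ} (Ψ : (Fin m → PowerSeries k) → Fin m → PowerSeries k)
    (h : ∀ (n : ℕ) (Z Z' : Fin m → PowerSeries k),
      (∀ i, (PowerSeries.X : PowerSeries k) ^ n ∣ Z i - Z' i) →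
      ∀ i, (PowerSeries.X : PowerSeries k) ^ n ∣ Ψ Z i - Ψ Z' i) :
    ∃ Z, ∀ i, Z i = PowerSeries.X * Ψ Z i := by
  classical
  let S : ℕ → Fin m → PowerSeries k :=
    fun l => Nat.rec (0 : Fin m → PowerSeries k) (fun _ Z i => PowerSeries.X * Ψ Z i) l
  have hS : ∀ l i, S (l + 1) i = PowerSeries.X * Ψ (S l) i := fun l i => rfl
  have hd : ∀ l i, (PowerSeries.X : PowerSeries k) ^ l ∣ S (l + 1) i - S l i := by
    intro l
    induction l with
    | zero => intro i; simp
    | succ l ih =>
      intro i
      rw [hS (l + 1) i, hS l i, ← mul_sub, pow_succ']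
      exact mul_dvd_mul_left _ (h l _ _ ih i)
  have hd2 : ∀ l j i, (PowerSeries.X : PowerSeries k) ^ l ∣ S (l + j) i - S l i := by
    intro l j i
    induction j with
    | zero => simp
    | succ j ih =>
      have h1 : (PowerSeries.X : PowerSeries k) ^ l ∣ S (l + j + 1) i - S (l + j) i :=
        (pow_dvd_pow _ (Nat.le_add_right l j)).trans (hd (l + j) i)
      have h2 := dvd_add h1 ih
      rw [← add_assoc]
      simpa using h2
  refine ⟨fun i => PowerSeries.mk (fun n => PowerSeries.coeff n (S (n + 1) i)), ?_⟩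
  set Z : Fin m → PowerSeries k :=
    fun i => PowerSeries.mk (fun n => PowerSeries.coeff n (S (n + 1) i)) with hZ
  have hZS : ∀ l i, (PowerSeries.X : PowerSeries k) ^ l ∣ Z i - S l i := by
    intro l i
    rw [PowerSeries.X_pow_dvd_iff]
    intro n hn
    have h1 := hd2 (n + 1) (l - (n + 1)) i
    rw [PowerSeries.X_pow_dvd_iff] at h1
    have h2 := h1 n (Nat.lt_succ_self n)
    rw [Nat.add_sub_cancel' hn] at h2
    rw [map_sub, sub_eq_zero] at h2
    rw [map_sub, sub_eq_zero, h2]
    simp [hZ]
  have hfin : ∀ i l, (PowerSeries.X : PowerSeries k) ^ (l + 1) ∣ Z i - PowerSeries.X * Ψ Z i := by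
    intro i l
    have h1 := hZS (l + 1) i
    have h2 : (PowerSeries.X : PowerSeries k) ^ (l + 1) ∣
        PowerSeries.X * Ψ Z i - S (l + 1) i := by
      rw [hS l i, ← mul_sub, pow_succ']
      exact mul_dvd_mul_left _ (h l _ _ (hZS l) i)
    have h3 := dvd_sub h1 h2
    simpa using h3
  intro i
  refine PowerSeries.ext fun n => ?_
  have h1 := hfin i n
  rw [PowerSeries.X_pow_dvd_iff] at h1
  have h2 := h1 n (Nat.lt_succ_self n)
  rwa [map_sub, sub_eq_zero] at h2

theorem eval_aeval {K : Type*} [Field K] {N : ℕ} (G : MvPolynomial (Fin N) K)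
    (f : Fin N → K[X]) (c : K) :
    (MvPolynomial.aeval f G).eval c = MvPolynomial.eval (fun l => (f l).eval c) G := by
  induction G using MvPolynomial.induction_on with
  | C a => simp
  | add p q hp hq => simp [hp, hq]
  | mul_X p i hp => simp [hp]

theorem eval_smul_hom {K : Type*} [Field K] {N d : ℕ} (G : MvPolynomial (Fin N) K)
    (hG : G.IsHomogeneous d) (s : K) (v : Fin N → K) :
    MvPolynomial.eval (s • v) G = s ^ d * MvPolynomial.eval v G := by
  rw [MvPolynomial.eval_eq', MvPolynomial.eval_eq', Finset.mul_sum]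
  refine Finset.sum_congr rfl fun e he => ?_
  have h1 := hG (MvPolynomial.mem_support_iff.1 he)
  change (Finsupp.weight (fun _ => 1)) e = d at h1
  rw [← Finsupp.degree_eq_weight_one] at h1
  have h2 : ∑ i, e i = d := by
    rw [← h1]
    exact (Finsupp.degree_eq_sum e).symm
  have h3 : ∏ i, (s • v) i ^ e i = s ^ d * ∏ i, v i ^ e i := by
    rw [← h2, ← Finset.prod_pow_eq_pow_sum, ← Finset.prod_mul_distrib]
    refine Finset.prod_congr rfl fun i _ => ?_
    rw [Pi.smul_apply, smul_eq_mul, mul_pow]
  rw [h3]
  ring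

theorem hom_line {K : Type*} [Field K] [Infinite K] {N d : ℕ} (G : MvPolynomial (Fin N) K)
    (hG : G.IsHomogeneous d) (a b : Fin N → K)
    (h : MvPolynomial.aeval (fun l => (C (a l) + X * C (b l) : K[X])) G = 0) (s t : K) :
    MvPolynomial.eval (s • a + t • b) G = 0 := by
  have key : ∀ s : K, s ≠ 0 → MvPolynomial.eval (s • a + t • b) G = 0 := by
    intro s hs
    have h1 : s • a + t • b = s • (a + (t / s) • b) := by
      rw [smul_add, smul_smul, mul_div_cancel₀ t hs]
    rw [h1, eval_smul_hom G hG]
    have h2 := eval_aeval G (fun l => (C (a l) + X * C (b l) : K[X])) (t / s)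
    rw [h, eval_zero] at h2
    have h3 : (fun l => (C (a l) + X * C (b l) : K[X]).eval (t / s)) = a + (t / s) • b := by
      funext l
      simp only [eval_add, eval_C, eval_mul, eval_X, Pi.add_apply, Pi.smul_apply, smul_eq_mul]
    rw [h3] at h2
    rw [← h2, mul_zero]
  have hq : MvPolynomial.aeval (fun l => (X * C (a l) + C (t * b l) : K[X])) G = 0 := by
    refine Polynomial.eq_zero_of_infinite_isRoot _ ?_
    have hinf : ({0}ᶜ : Set K).Infinite := (Set.finite_singleton (0 : K)).infinite_compl
    refine hinf.mono ?_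
    intro c hc
    have hc' : c ≠ 0 := by simpa using hc
    show (MvPolynomial.aeval (fun l => (X * C (a l) + C (t * b l) : K[X])) G).eval c = 0
    have e : (fun l => (X * C (a l) + C (t * b l) : K[X]).eval c) = c • a + t • b := by
      funext l
      simp only [eval_add, eval_C, eval_mul, eval_X, Pi.add_apply, Pi.smul_apply, smul_eq_mul]
    rw [eval_aeval, e]
    exact key c hc'
  by_cases hs : s = 0
  · have h2 := eval_aeval G (fun l => (X * C (a l) + C (t * b l) : K[X])) 0
    have e : (fun l => (X * C (a l) + C (t * b l) : K[X]).eval 0) = s • a + t • b := by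
      funext l
      simp only [eval_add, eval_C, eval_mul, eval_X, Pi.add_apply, Pi.smul_apply, smul_eq_mul, hs]
    rw [hq, eval_zero, e] at h2
    exact h2.symm
  · exact key s hs

theorem norm_basis {K : Type*} [Field K] {N : ℕ} [NeZero N] (O : ValuationSubring K)
    (a b : Fin N → K) (hab : LinearIndependent K ![a, b]) :
    ∃ (i j : Fin N) (a' b' : Fin N → K), (∀ l, a' l ∈ O) ∧ (∀ l, b' l ∈ O) ∧
      a' i = 1 ∧ a' j = 0 ∧ b' i = 0 ∧ b' j = 1 ∧
      ∃ α β γ δ : K, a' = α • a + β • b ∧ b' = γ • a + δ • b := by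
  classical
  obtain ⟨⟨i, j⟩, -, hmax⟩ := Finset.exists_max_image (Finset.univ : Finset (Fin N × Fin N))
    (fun q => O.valuation (a q.1 * b q.2 - a q.2 * b q.1)) ⟨(0, 0), Finset.mem_univ _⟩
  have hne : a i * b j - a j * b i ≠ 0 := by
    intro h0
    have hall : ∀ l m, a l * b m - a m * b l = 0 := by
      intro l m
      have h := hmax (l, m) (Finset.mem_univ _)
      simp only [h0, map_zero] at h
      exact (map_eq_zero O.valuation).1 (le_antisymm h zero_le)
    rw [LinearIndependent.pair_iff] at hab
    have ha : a ≠ 0 := by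
      intro ha
      have := hab 1 0 (by rw [ha]; simp)
      exact one_ne_zero this.1
    obtain ⟨r, hr⟩ := Function.ne_iff.1 ha
    have h := hab (b r) (-(a r)) (by
      funext m
      simp only [Pi.add_apply, Pi.smul_apply, smul_eq_mul, Pi.zero_apply]
      have := hall r m
      linear_combination -this)
    exact hr (by simpa using h.2)
  have hO : ∀ l m, (a l * b m - a m * b l) / (a i * b j - a j * b i) ∈ O := by
    intro l m
    rw [← ValuationSubring.valuation_le_one_iff, map_div₀]
    have h := hmax (l, m) (Finset.mem_univ _)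
    simp only at h
    exact div_le_one_of_le₀ h zero_le
  refine ⟨i, j, fun l => (a l * b j - a j * b l) / (a i * b j - a j * b i),
    fun l => (a i * b l - a l * b i) / (a i * b j - a j * b i), fun l => hO l j,
    fun l => hO i l, div_self hne, ?_, ?_, div_self hne,
    b j / (a i * b j - a j * b i), -(a j) / (a i * b j - a j * b i),
    -(b i) / (a i * b j - a j * b i), a i / (a i * b j - a j * b i), ?_, ?_⟩
  · simp
  · simp
  · funext l
    simp only [Pi.add_apply, Pi.smul_apply, smul_eq_mul]
    ring
  · funext l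
    simp only [Pi.add_apply, Pi.smul_apply, smul_eq_mul]
    ring

end Pool.Agent.Helper11.LS
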