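import Pool.Agent.Helper11.LS.Sys

/-!
# LS: lines on complete intersections of type (2,3) in `ℙ^n`, `n ≥ 5`, and (2,2,2), `n ≥ 6`
-/

set_option autoImplicit false

namespace Pool.Agent.Helper11.LS

open Polynomial

universe u

section special

variable {k : Type u} [Field k]

/-- the special system of type (2,3) -/
noncomputable def G23 (k : Type u) [Field k] : Fin 2 → MvPolynomial (Fin 6) k :=
  ![MvPolynomial.X 2 * MvPolynomial.X 0 + MvPolynomial.X 3 * MvPolynomial.X 1,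
    MvPolynomial.X 4 * MvPolynomial.X 0 ^ 2 + MvPolynomial.X 5 * MvPolynomial.X 1 ^ 2]

/-- the chart of lines for the type (2,3) -/
noncomputable def A23 (Z : Fin 7 → PowerSeries k) : Fin 6 → PowerSeries k := ![1, 0, Z 0, 0, Z 3, Z 5]

/-- the chart of lines for the type (2,3) -/
noncomputable def B23 (Z : Fin 7 → PowerSeries k) : Fin 6 → PowerSeries k := ![0, 1, Z 1, Z 2, Z 4, Z 6]

/-- the equations for the type (2,3) -/
def e23 : Fin 7 → Fin 2 × ℕ := ![(0, 0), (0, 1), (0, 2), (1, 0), (1, 1), (1, 2), (1, 3)]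

/-- the special system of type (2,2,2) -/
noncomputable def G222 (k : Type u) [Field k] : Fin 3 → MvPolynomial (Fin 7) k :=
  ![MvPolynomial.X 2 * MvPolynomial.X 0 + MvPolynomial.X 3 * MvPolynomial.X 1,
    MvPolynomial.X 4 * MvPolynomial.X 0 + MvPolynomial.X 5 * MvPolynomial.X 1,
    MvPolynomial.X 6 * MvPolynomial.X 0 + MvPolynomial.X 2 * MvPolynomial.X 1]

/-- the chart of lines for the type (2,2,2) -/
noncomputable def A222 (Z : Fin 9 → PowerSeries k) : Fin 7 → PowerSeries k :=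
  ![1, 0, Z 0, Z 1 - Z 8, Z 3, 0, Z 6]

/-- the chart of lines for the type (2,2,2) -/
noncomputable def B222 (Z : Fin 9 → PowerSeries k) : Fin 7 → PowerSeries k :=
  ![0, 1, Z 8, Z 2, Z 4, Z 5, Z 7 - Z 0]

/-- the equations for the type (2,2,2) -/
def e222 : Fin 9 → Fin 3 × ℕ :=
  ![(0, 0), (0, 1), (0, 2), (1, 0), (1, 1), (1, 2), (2, 0), (2, 1), (2, 2)]

private theorem coeff_quad (c0 c1 c2 : PowerSeries k) :
    (C c0 + X * C c1 + X ^ 2 * C c2 : (PowerSeries k)[X]).coeff 0 = c0 ∧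
    (C c0 + X * C c1 + X ^ 2 * C c2 : (PowerSeries k)[X]).coeff 1 = c1 ∧
    (C c0 + X * C c1 + X ^ 2 * C c2 : (PowerSeries k)[X]).coeff 2 = c2 := by
  have h : ∀ (j n : ℕ) (r : PowerSeries k), (X ^ j * C r : (PowerSeries k)[X]).coeff n =
      if n = j then r else 0 := by
    intro j n r
    rw [mul_comm, coeff_C_mul_X_pow]
  have h1 : ∀ (n : ℕ) (r : PowerSeries k), (X * C r : (PowerSeries k)[X]).coeff n =
      if n = 1 then r else 0 := by
    intro n r
    have := h 1 n r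
    rwa [pow_one] at this
  refine ⟨?_, ?_, ?_⟩ <;> simp [coeff_add, h, h1, coeff_C]

private theorem coeff_cub (c0 c1 c2 c3 : PowerSeries k) :
    (C c0 + X * C c1 + X ^ 2 * C c2 + X ^ 3 * C c3 : (PowerSeries k)[X]).coeff 0 = c0 ∧
    (C c0 + X * C c1 + X ^ 2 * C c2 + X ^ 3 * C c3 : (PowerSeries k)[X]).coeff 1 = c1 ∧
    (C c0 + X * C c1 + X ^ 2 * C c2 + X ^ 3 * C c3 : (PowerSeries k)[X]).coeff 2 = c2 ∧
    (C c0 + X * C c1 + X ^ 2 * C c2 + X ^ 3 * C c3 : (PowerSeries k)[X]).coeff 3 = c3 := by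
  have h : ∀ (j n : ℕ) (r : PowerSeries k), (X ^ j * C r : (PowerSeries k)[X]).coeff n =
      if n = j then r else 0 := by
    intro j n r
    rw [mul_comm, coeff_C_mul_X_pow]
  have h1 : ∀ (n : ℕ) (r : PowerSeries k), (X * C r : (PowerSeries k)[X]).coeff n =
      if n = 1 then r else 0 := by
    intro n r
    have := h 1 n r
    rwa [pow_one] at this
  refine ⟨?_, ?_, ?_, ?_⟩ <;> simp [coeff_add, h, h1, coeff_C]

theorem line_six [IsAlgClosed k] (F : Fin 2 → MvPolynomial (Fin 6) k)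
    (hF : ∀ c, (F c).IsHomogeneous (![2, 3] c)) :
    ∃ a b : Fin 6 → k, LinearIndependent k ![a, b] ∧
      ∀ c, ∀ s t : k, MvPolynomial.eval (s • a + t • b) (F c) = 0 := by
  have hX : ∀ i : Fin 6, (MvPolynomial.X i : MvPolynomial (Fin 6) k).IsHomogeneous 1 :=
    fun i => MvPolynomial.isHomogeneous_X k i
  refine line_sys ![2, 3] F (G23 k) hF ?_ A23 B23 0 1 (fun _ => rfl) (fun _ => rfl)
    (fun _ => rfl) (fun _ => rfl) ?_ ?_ e23 ?_ ?_
  · intro c
    fin_cases c
    · exact ((hX 2).mul (hX 0)).add ((hX 3).mul (hX 1))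
    · exact ((hX 4).mul ((hX 0).pow 2)).add ((hX 5).mul ((hX 1).pow 2))
  · intro t Z Z' h l
    fin_cases l <;> simp [A23, h]
  · intro t Z Z' h l
    fin_cases l <;> simp [B23, h]
  · intro c n hn
    fin_cases c
    · have hn' : n ≤ 2 := hn
      have : n = 0 ∨ n = 1 ∨ n = 2 := by omega
      rcases this with rfl | rfl | rfl
      · exact ⟨0, rfl⟩
      · exact ⟨1, rfl⟩
      · exact ⟨2, rfl⟩
    · have hn' : n ≤ 3 := hn
      have : n = 0 ∨ n = 1 ∨ n = 2 ∨ n = 3 := by omega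
      rcases this with rfl | rfl | rfl | rfl
      · exact ⟨3, rfl⟩
      · exact ⟨4, rfl⟩
      · exact ⟨5, rfl⟩
      · exact ⟨6, rfl⟩
  · intro Z i
    have h0 : (C (A23 Z 0) + X * C (B23 Z 0) : (PowerSeries k)[X]) = 1 := by simp [A23, B23]
    have h1 : (C (A23 Z 1) + X * C (B23 Z 1) : (PowerSeries k)[X]) = X := by simp [A23, B23]
    have h2 : (C (A23 Z 2) + X * C (B23 Z 2) : (PowerSeries k)[X]) = C (Z 0) + X * C (Z 1) := by
      simp [A23, B23]
    have h3 : (C (A23 Z 3) + X * C (B23 Z 3) : (PowerSeries k)[X]) = X * C (Z 2) := by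
      simp [A23, B23]
    have h4 : (C (A23 Z 4) + X * C (B23 Z 4) : (PowerSeries k)[X]) = C (Z 3) + X * C (Z 4) := by
      simp [A23, B23]
    have h5 : (C (A23 Z 5) + X * C (B23 Z 5) : (PowerSeries k)[X]) = C (Z 5) + X * C (Z 6) := by
      simp [A23, B23]
    have g0 : rest (A23 Z) (B23 Z) (G23 k 0) = C (Z 0) + X * C (Z 1) + X ^ 2 * C (Z 2) := by
      show rest (A23 Z) (B23 Z) (MvPolynomial.X 2 * MvPolynomial.X 0 +
        MvPolynomial.X 3 * MvPolynomial.X 1) = _
      simp only [rest, map_add, map_mul, MvPolynomial.aeval_X]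
      rw [h0, h1, h2, h3]
      ring
    have g1 : rest (A23 Z) (B23 Z) (G23 k 1) =
        C (Z 3) + X * C (Z 4) + X ^ 2 * C (Z 5) + X ^ 3 * C (Z 6) := by
      show rest (A23 Z) (B23 Z) (MvPolynomial.X 4 * MvPolynomial.X 0 ^ 2 +
        MvPolynomial.X 5 * MvPolynomial.X 1 ^ 2) = _
      simp only [rest, map_add, map_mul, map_pow, MvPolynomial.aeval_X]
      rw [h0, h1, h4, h5]
      ring
    obtain ⟨a0, a1, a2⟩ := coeff_quad (Z 0) (Z 1) (Z 2)
    obtain ⟨b0, b1, b2, b3⟩ := coeff_cub (Z 3) (Z 4) (Z 5) (Z 6)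
    fin_cases i
    · show (rest (A23 Z) (B23 Z) (G23 k 0)).coeff 0 = Z 0
      rw [g0, a0]
    · show (rest (A23 Z) (B23 Z) (G23 k 0)).coeff 1 = Z 1
      rw [g0, a1]
    · show (rest (A23 Z) (B23 Z) (G23 k 0)).coeff 2 = Z 2
      rw [g0, a2]
    · show (rest (A23 Z) (B23 Z) (G23 k 1)).coeff 0 = Z 3
      rw [g1, b0]
    · show (rest (A23 Z) (B23 Z) (G23 k 1)).coeff 1 = Z 4
      rw [g1, b1]
    · show (rest (A23 Z) (B23 Z) (G23 k 1)).coeff 2 = Z 5
      rw [g1, b2]
    · show (rest (A23 Z) (B23 Z) (G23 k 1)).coeff 3 = Z 6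
      rw [g1, b3]

theorem line_seven [IsAlgClosed k] (F : Fin 3 → MvPolynomial (Fin 7) k)
    (hF : ∀ c, (F c).IsHomogeneous 2) :
    ∃ a b : Fin 7 → k, LinearIndependent k ![a, b] ∧
      ∀ c, ∀ s t : k, MvPolynomial.eval (s • a + t • b) (F c) = 0 := by
  have hX : ∀ i : Fin 7, (MvPolynomial.X i : MvPolynomial (Fin 7) k).IsHomogeneous 1 :=
    fun i => MvPolynomial.isHomogeneous_X k i
  refine line_sys (fun _ => 2) F (G222 k) hF ?_ A222 B222 0 1 (fun _ => rfl) (fun _ => rfl)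
    (fun _ => rfl) (fun _ => rfl) ?_ ?_ e222 ?_ ?_
  · intro c
    fin_cases c
    · exact ((hX 2).mul (hX 0)).add ((hX 3).mul (hX 1))
    · exact ((hX 4).mul (hX 0)).add ((hX 5).mul (hX 1))
    · exact ((hX 6).mul (hX 0)).add ((hX 2).mul (hX 1))
  · intro t Z Z' h l
    have h' : t ∣ (Z 1 - Z 8) - (Z' 1 - Z' 8) := by
      have e1 : (Z 1 - Z 8) - (Z' 1 - Z' 8) = (Z 1 - Z' 1) - (Z 8 - Z' 8) := by ring
      rw [e1]
      exact dvd_sub (h 1) (h 8)
    fin_cases l <;> simp [A222, h, h']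
  · intro t Z Z' h l
    have h' : t ∣ (Z 7 - Z 0) - (Z' 7 - Z' 0) := by
      have e1 : (Z 7 - Z 0) - (Z' 7 - Z' 0) = (Z 7 - Z' 7) - (Z 0 - Z' 0) := by ring
      rw [e1]
      exact dvd_sub (h 7) (h 0)
    fin_cases l <;> simp [B222, h, h']
  · intro c n hn
    have : n = 0 ∨ n = 1 ∨ n = 2 := by omega
    fin_cases c
    · rcases this with rfl | rfl | rfl
      · exact ⟨0, rfl⟩
      · exact ⟨1, rfl⟩
      · exact ⟨2, rfl⟩
    · rcases this with rfl | rfl | rfl
      · exact ⟨3, rfl⟩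
      · exact ⟨4, rfl⟩
      · exact ⟨5, rfl⟩
    · rcases this with rfl | rfl | rfl
      · exact ⟨6, rfl⟩
      · exact ⟨7, rfl⟩
      · exact ⟨8, rfl⟩
  · intro Z i
    have h0 : (C (A222 Z 0) + X * C (B222 Z 0) : (PowerSeries k)[X]) = 1 := by simp [A222, B222]
    have h1 : (C (A222 Z 1) + X * C (B222 Z 1) : (PowerSeries k)[X]) = X := by simp [A222, B222]
    have h2 : (C (A222 Z 2) + X * C (B222 Z 2) : (PowerSeries k)[X]) = C (Z 0) + X * C (Z 8) := by
      simp [A222, B222]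
    have h3 : (C (A222 Z 3) + X * C (B222 Z 3) : (PowerSeries k)[X]) =
        (C (Z 1) - C (Z 8)) + X * C (Z 2) := by
      simp [A222, B222]
    have h4 : (C (A222 Z 4) + X * C (B222 Z 4) : (PowerSeries k)[X]) = C (Z 3) + X * C (Z 4) := by
      simp [A222, B222]
    have h5 : (C (A222 Z 5) + X * C (B222 Z 5) : (PowerSeries k)[X]) = X * C (Z 5) := by
      simp [A222, B222]
    have h6 : (C (A222 Z 6) + X * C (B222 Z 6) : (PowerSeries k)[X]) =
        C (Z 6) + X * (C (Z 7) - C (Z 0)) := by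
      simp [A222, B222]
    have g0 : rest (A222 Z) (B222 Z) (G222 k 0) = C (Z 0) + X * C (Z 1) + X ^ 2 * C (Z 2) := by
      show rest (A222 Z) (B222 Z) (MvPolynomial.X 2 * MvPolynomial.X 0 +
        MvPolynomial.X 3 * MvPolynomial.X 1) = _
      simp only [rest, map_add, map_mul, MvPolynomial.aeval_X]
      rw [h0, h1, h2, h3]
      ring
    have g1 : rest (A222 Z) (B222 Z) (G222 k 1) = C (Z 3) + X * C (Z 4) + X ^ 2 * C (Z 5) := by
      show rest (A222 Z) (B222 Z) (MvPolynomial.X 4 * MvPolynomial.X 0 +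
        MvPolynomial.X 5 * MvPolynomial.X 1) = _
      simp only [rest, map_add, map_mul, MvPolynomial.aeval_X]
      rw [h0, h1, h4, h5]
      ring
    have g2 : rest (A222 Z) (B222 Z) (G222 k 2) = C (Z 6) + X * C (Z 7) + X ^ 2 * C (Z 8) := by
      show rest (A222 Z) (B222 Z) (MvPolynomial.X 6 * MvPolynomial.X 0 +
        MvPolynomial.X 2 * MvPolynomial.X 1) = _
      simp only [rest, map_add, map_mul, MvPolynomial.aeval_X]
      rw [h0, h1, h2, h6]
      ring
    obtain ⟨a0, a1, a2⟩ := coeff_quad (Z 0) (Z 1) (Z 2)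
    obtain ⟨b0, b1, b2⟩ := coeff_quad (Z 3) (Z 4) (Z 5)
    obtain ⟨c0, c1, c2⟩ := coeff_quad (Z 6) (Z 7) (Z 8)
    fin_cases i
    · show (rest (A222 Z) (B222 Z) (G222 k 0)).coeff 0 = Z 0
      rw [g0, a0]
    · show (rest (A222 Z) (B222 Z) (G222 k 0)).coeff 1 = Z 1
      rw [g0, a1]
    · show (rest (A222 Z) (B222 Z) (G222 k 0)).coeff 2 = Z 2
      rw [g0, a2]
    · show (rest (A222 Z) (B222 Z) (G222 k 1)).coeff 0 = Z 3
      rw [g1, b0]
    · show (rest (A222 Z) (B222 Z) (G222 k 1)).coeff 1 = Z 4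
      rw [g1, b1]
    · show (rest (A222 Z) (B222 Z) (G222 k 1)).coeff 2 = Z 5
      rw [g1, b2]
    · show (rest (A222 Z) (B222 Z) (G222 k 2)).coeff 0 = Z 6
      rw [g2, c0]
    · show (rest (A222 Z) (B222 Z) (G222 k 2)).coeff 1 = Z 7
      rw [g2, c1]
    · show (rest (A222 Z) (B222 Z) (G222 k 2)).coeff 2 = Z 8
      rw [g2, c2]

end special

section restrict

variable {k : Type u} [Field k] {M N r : ℕ}

/-- restriction of the variables to the first `M` ones -/
noncomputable def cut (M N : ℕ) (k : Type u) [Field k] : Fin N → MvPolynomial (Fin M) k :=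
  fun l => if h : (l : ℕ) < M then MvPolynomial.X ⟨l, h⟩ else 0

/-- extension of a vector by zero -/
def ext0 (N : ℕ) (v : Fin M → k) : Fin N → k := fun l => if h : (l : ℕ) < M then v ⟨l, h⟩ else 0

theorem cut_hom {d : ℕ} (F : MvPolynomial (Fin N) k) (hF : F.IsHomogeneous d) :
    (MvPolynomial.aeval (cut M N k) F).IsHomogeneous d := by
  have h := hF.aeval (cut M N k) (n := 1) (by
    intro i
    unfold cut
    split_ifs
    · exact MvPolynomial.isHomogeneous_X k _
    · exact MvPolynomial.isHomogeneous_zero _ _ _)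
  rwa [one_mul] at h

theorem eval_cut (F : MvPolynomial (Fin N) k) (v : Fin M → k) :
    MvPolynomial.eval v (MvPolynomial.aeval (cut M N k) F) = MvPolynomial.eval (ext0 N v) F := by
  induction F using MvPolynomial.induction_on with
  | C a => simp
  | add p q hp hq => rw [map_add, map_add, map_add, hp, hq]
  | mul_X p i hp =>
    rw [map_mul, map_mul, map_mul, hp, MvPolynomial.aeval_X, MvPolynomial.eval_X]
    congr 1
    unfold cut ext0
    split_ifs
    · rw [MvPolynomial.eval_X]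
    · rw [map_zero]

theorem ext0_comb (v w : Fin M → k) (s t : k) :
    ext0 N (s • v + t • w) = s • ext0 N v + t • ext0 N w := by
  funext l
  simp only [ext0, Pi.add_apply, Pi.smul_apply, smul_eq_mul]
  split_ifs
  · rfl
  · ring

theorem ext0_indep (hMN : M ≤ N) (v w : Fin M → k) (h : LinearIndependent k ![v, w]) :
    LinearIndependent k ![ext0 N v, ext0 N w] := by
  rw [LinearIndependent.pair_iff] at h ⊢
  intro s t hst
  rw [← ext0_comb] at hst
  refine h s t ?_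
  funext l
  have h1 := congrFun hst ⟨l, lt_of_lt_of_le l.2 hMN⟩
  have h2 : ext0 N (s • v + t • w) ⟨l, lt_of_lt_of_le l.2 hMN⟩ = (s • v + t • w) l := by
    unfold ext0
    rw [dif_pos l.2]
  rw [h2] at h1
  exact h1

end restrict

/-- **Lines on complete intersections of type (2,3).** -/
theorem line_23 (k : Type u) [Field k] [IsAlgClosed k] {n : ℕ} (hn : 5 ≤ n)
    (Q F : MvPolynomial (Fin (n + 1)) k) (hQ : Q.IsHomogeneous 2) (hF : F.IsHomogeneous 3) :
    ∃ a b : Fin (n + 1) → k, LinearIndependent k ![a, b] ∧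
      ∀ s t : k, MvPolynomial.eval (s • a + t • b) Q = 0 ∧
        MvPolynomial.eval (s • a + t • b) F = 0 := by
  obtain ⟨a, b, hab, h⟩ := line_six
    ![MvPolynomial.aeval (cut 6 (n + 1) k) Q, MvPolynomial.aeval (cut 6 (n + 1) k) F] (by
      intro c
      fin_cases c
      · exact cut_hom Q hQ
      · exact cut_hom F hF)
  refine ⟨ext0 (n + 1) a, ext0 (n + 1) b, ext0_indep (by omega) a b hab, fun s t => ⟨?_, ?_⟩⟩
  · rw [← ext0_comb, ← eval_cut]
    exact h 0 s t
  · rw [← ext0_comb, ← eval_cut]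
    exact h 1 s t

/-- **Lines on complete intersections of type (2,2,2).** -/
theorem line_222 (k : Type u) [Field k] [IsAlgClosed k] {n : ℕ} (hn : 6 ≤ n)
    (Q : Fin 3 → MvPolynomial (Fin (n + 1)) k) (hQ : ∀ c, (Q c).IsHomogeneous 2) :
    ∃ a b : Fin (n + 1) → k, LinearIndependent k ![a, b] ∧
      ∀ c, ∀ s t : k, MvPolynomial.eval (s • a + t • b) (Q c) = 0 := by
  obtain ⟨a, b, hab, h⟩ := line_seven
    (fun c => MvPolynomial.aeval (cut 7 (n + 1) k) (Q c)) (fun c => cut_hom (Q c) (hQ c))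
  refine ⟨ext0 (n + 1) a, ext0 (n + 1) b, ext0_indep (by omega) a b hab, fun c s t => ?_⟩
  rw [← ext0_comb, ← eval_cut]
  exact h c s t

end Pool.Agent.Helper11.LS
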