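import Pool.Agent.Helper11.LS.Step
import Pool.Agent.Helper60.LS.Num

/-!
# Local search for `k` matroids: ratio `k / 2 + d` with exchanges of bounded size
-/

set_option autoImplicit false

namespace Pool.Agent.Helper11.LS

open Finset Pool.Agent.Helper60.LS

theorem step_mono {k : ℕ} {β β' : ℝ} {s : ℕ} (h : β ≤ β') (H : Step k β s) : Step k β' s := by
  intro E _ _ M B S hB hS hlt
  refine H E M B S hB hS (lt_of_le_of_lt ?_ hlt)
  exact mul_le_mul_of_nonneg_right h (Nat.cast_nonneg _)

/-- One element is added. -/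
theorem step0 {k : ℕ} (hk : 2 ≤ k) : Step k (k : ℝ) 1 := by
  intro E _ _ M B S hB hS hlt
  classical
  have hlt' : k * B.card < S.card := by exact_mod_cast hlt
  have hV := fun l => exists_V (hB l) (hS l)
  choose V hVS hVi hVc hSB using hV
  have hVB : ∀ l, ∀ e ∈ V l, e ∉ B := fun l e he => (mem_sdiff.1 (hVS l he)).2
  have hVcard : ∀ l, (B ∪ V l).card = B.card + (V l).card := fun l =>
    card_union_of_disjoint (disjoint_right.2 fun e he => hVB l e he)
  have hDl : ∀ l, ((S \ B) \ V l).card + (S ∩ B).card ≤ B.card := by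
    intro l
    have h1 := card_sdiff_add_card_inter S B
    have h2 := hVc l
    have h3 := hVcard l
    have h4 := card_sdiff_add_card_eq_card (hVS l)
    omega
  have h1 := card_sdiff_add_card_inter S B
  have h2 : ∑ l : Fin k, (((S \ B) \ V l).card + (S ∩ B).card) ≤ ∑ _l : Fin k, B.card :=
    sum_le_sum fun l _ => hDl l
  rw [sum_add_distrib, sum_const, sum_const, card_univ, Fintype.card_fin, smul_eq_mul,
    smul_eq_mul] at h2
  have h3 : 1 * (S ∩ B).card ≤ k * (S ∩ B).card := Nat.mul_le_mul_right _ (by omega)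
  have h4 : ∑ l : Fin k, ((S \ B) \ V l).card < (S \ B).card := by omega
  have h5 : ∃ e ∈ S \ B, ∀ l, e ∈ V l := by
    by_contra hcon
    push Not at hcon
    have h6 : S \ B ⊆ univ.biUnion (fun l => (S \ B) \ V l) := by
      intro e he
      obtain ⟨l, hl⟩ := hcon e he
      exact mem_biUnion.2 ⟨l, mem_univ l, mem_sdiff.2 ⟨he, hl⟩⟩
    have h7 := (card_le_card h6).trans card_biUnion_le
    omega
  obtain ⟨e, he, hel⟩ := h5
  refine ⟨{e}, singleton_subset_iff.2 he, by rw [card_singleton], insert e B, ?_, ?_, ?_⟩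
  · intro x hx
    simp only [mem_insert, mem_union, mem_singleton] at hx ⊢
    tauto
  · intro i
    refine (hVi i).subset ?_
    have : insert e B ⊆ B ∪ V i :=
      insert_subset (mem_union_right _ (hel i)) subset_union_left
    exact_mod_cast this
  · rw [card_insert_of_notMem (mem_sdiff.1 he).2]
    exact Nat.lt_succ_self _

/-- **Local search.** -/
theorem local_step {k : ℕ} (hk : 2 ≤ k) {d : ℝ} (hd : 0 < d) :
    ∃ s : ℕ, 1 ≤ s ∧ Step k ((k : ℝ) / 2 + d) s := by
  have hkR : (2 : ℝ) ≤ k := by exact_mod_cast hk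
  have key : ∀ j : ℕ, Step k (bet (k : ℝ) j) ((2 * k + 1) ^ j) := by
    intro j
    induction j with
    | zero => exact step0 hk
    | succ j ih =>
      have h1 : 1 ≤ bet (k : ℝ) j := by
        have := bet_ge hkR j
        linarith
      have h2 := step hk h1 (Nat.one_le_pow _ _ (by omega)) ih
      rw [bet_succ, pow_succ, mul_comm ((2 * k + 1) ^ j)]
      exact h2
  obtain ⟨j, hj⟩ := bet_lim hkR hd
  exact ⟨(2 * k + 1) ^ j, Nat.one_le_pow _ _ (by omega), step_mono hj (key j)⟩

theorem local_search {k : ℕ} (hk : 2 ≤ k) {d : ℝ} (hd : 0 < d) :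
    ∃ s : ℕ, 1 ≤ s ∧ ∀ (E : Type) [Fintype E] [DecidableEq E] (M : Fin k → Matroid E)
      (B S : Finset E), (∀ i, (M i).Indep (B : Set E)) → (∀ i, (M i).Indep (S : Set E)) →
      ((k : ℝ) / 2 + d) * B.card < S.card →
      ∃ X : Finset E, X ⊆ S \ B ∧ X.card ≤ s ∧ ∃ B' : Finset E, B' ⊆ B ∪ X ∧
        (∀ i, (M i).Indep (B' : Set E)) ∧ B.card < B'.card :=
  local_step hk hd

end Pool.Agent.Helper11.LS
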