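import Mathlib

/-!
# Local search for `k` matroids with larger exchanges: the recursion step
-/

set_option autoImplicit false

namespace Pool.Agent.Helper11.LS

open Finset

variable {E : Type} [DecidableEq E]

/-- Extension of `K0` by elements of `K1` to any size between. -/
theorem ext_n {M : Matroid E} {K0 K1 : Finset E} (h0 : M.Indep (K0 : Set E))
    (h1 : M.Indep (K1 : Set E)) (n : ℕ) (hn0 : K0.card ≤ n) (hn1 : n ≤ K1.card) :
    ∃ J : Finset E, K0 ⊆ J ∧ J ⊆ K0 ∪ K1 ∧ M.Indep (J : Set E) ∧ J.card = n := by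
  induction n, hn0 using Nat.le_induction with
  | base => exact ⟨K0, subset_rfl, subset_union_left, h0, rfl⟩
  | succ n hn ih =>
    obtain ⟨J, hJ0, hJ1, hJ2, hJ3⟩ := ih (by omega)
    have hlt : (J : Set E).encard < (K1 : Set E).encard := by
      rw [Set.encard_coe_eq_coe_finsetCard, Set.encard_coe_eq_coe_finsetCard]
      exact_mod_cast (show J.card < K1.card by omega)
    obtain ⟨e, he, hei⟩ := hJ2.augment h1 hlt
    have heK : e ∈ K1 := by exact_mod_cast he.1
    have heJ : e ∉ J := by
      intro h
      exact he.2 (by exact_mod_cast h)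
    refine ⟨insert e J, hJ0.trans (subset_insert e J), ?_, ?_, ?_⟩
    · exact insert_subset (mem_union_right _ heK) hJ1
    · rw [coe_insert]
      exact hei
    · rw [card_insert_of_notMem heJ, hJ3]

/-- Extension of `K0` by elements of `K1`. -/
theorem ext_le {M : Matroid E} {K0 K1 : Finset E} (h0 : M.Indep (K0 : Set E))
    (h1 : M.Indep (K1 : Set E)) :
    ∃ J : Finset E, K0 ⊆ J ∧ J ⊆ K0 ∪ K1 ∧ M.Indep (J : Set E) ∧ K1.card ≤ J.card := by
  rcases le_total K0.card K1.card with h | h
  · obtain ⟨J, a, b, c, d⟩ := ext_n h0 h1 K1.card h le_rfl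
    exact ⟨J, a, b, c, d.ge⟩
  · exact ⟨K0, subset_rfl, subset_union_left, h0, h⟩

/-- Adding `K0` to `K1` costs at most `|X|` elements, if `K0` is contained in `K1 ∪ X`. -/
theorem lift {M : Matroid E} {K0 K1 X : Finset E} (h0 : M.Indep (K0 : Set E))
    (h1 : M.Indep (K1 : Set E)) (hX : K0 \ K1 ⊆ X) :
    ∃ R : Finset E, R ⊆ K1 \ K0 ∧ R.card ≤ X.card ∧ M.Indep (((K0 ∪ K1) \ R : Finset E) : Set E) := by
  obtain ⟨J, a, b, c, d⟩ := ext_le h0 h1
  refine ⟨K1 \ J, sdiff_subset_sdiff subset_rfl a, ?_, ?_⟩
  · have e1 : (K1 \ J).card ≤ (J \ K1).card := by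
      have e2 := card_sdiff_add_card_inter K1 J
      have e3 := card_sdiff_add_card_inter J K1
      rw [inter_comm] at e3
      omega
    refine e1.trans (card_le_card ?_)
    intro x hx
    rw [mem_sdiff] at hx
    have h2 := b hx.1
    rw [mem_union] at h2
    exact hX (mem_sdiff.2 ⟨h2.resolve_right hx.2, hx.2⟩)
  · refine c.subset ?_
    intro x hx
    rw [mem_coe] at hx ⊢
    simp only [mem_sdiff, mem_union] at hx
    rcases hx.1 with h | h
    · exact a h
    · by_contra hxJ
      exact hx.2 ⟨h, hxJ⟩

/-- A maximal extension of `B` by elements of `S`. -/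
theorem exists_V [Fintype E] {M : Matroid E} {B S : Finset E} (hB : M.Indep (B : Set E))
    (hS : M.Indep (S : Set E)) :
    ∃ V : Finset E, V ⊆ S \ B ∧ M.Indep ((B ∪ V : Finset E) : Set E) ∧
      S.card ≤ (B ∪ V).card ∧ (S ∩ B).card ≤ B.card := by
  obtain ⟨J, a, b, c, d⟩ := ext_le hB hS
  refine ⟨J \ B, ?_, ?_, ?_, card_le_card inter_subset_right⟩
  · intro x hx
    rw [mem_sdiff] at hx ⊢
    have := b hx.1
    rw [mem_union] at this
    exact ⟨this.resolve_left hx.2, hx.2⟩
  · rw [union_sdiff_of_subset a]
    exact c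
  · rw [union_sdiff_of_subset a]
    exact d

/-- The statement of the recursion. -/
def Step (k : ℕ) (β : ℝ) (s : ℕ) : Prop :=
  ∀ (E : Type) [Fintype E] [DecidableEq E] (M : Fin k → Matroid E) (B S : Finset E),
    (∀ i, (M i).Indep (B : Set E)) → (∀ i, (M i).Indep (S : Set E)) →
    β * B.card < S.card →
    ∃ X : Finset E, X ⊆ S \ B ∧ X.card ≤ s ∧ ∃ B' : Finset E, B' ⊆ B ∪ X ∧
      (∀ i, (M i).Indep (B' : Set E)) ∧ B.card < B'.card

/-- **The recursion step.** -/
theorem step {k : ℕ} (hk : 2 ≤ k) {β : ℝ} (hβ : 1 ≤ β) {s : ℕ} (hs : 1 ≤ s) (H : Step k β s) :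
    Step k ((((k : ℝ) + 1) * β - k) / (2 * β - 1)) ((2 * k + 1) * s) := by
  intro E _ _ M B S hB hS hlt
  classical
  by_contra hcon
  have hno : ∀ X : Finset E, X ⊆ S \ B → X.card ≤ (2 * k + 1) * s → ∀ B' : Finset E, B' ⊆ B ∪ X →
      (∀ i, (M i).Indep (B' : Set E)) → B'.card ≤ B.card := by
    intro X h1 h2 B' h3 h4
    by_contra h5
    exact hcon ⟨X, h1, h2, B', h3, h4, not_le.1 h5⟩
  have hs1 : 1 ≤ (2 * k + 1) * s := Nat.one_le_iff_ne_zero.2 (by positivity)
  have hs2 : 2 ≤ (2 * k + 1) * s := by nlinarith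
  have hV := fun l => exists_V (hB l) (hS l)
  choose V hVS hVi hVc hSB using hV
  have hVB : ∀ l, ∀ e ∈ V l, e ∉ B := fun l e he => (mem_sdiff.1 (hVS l he)).2
  have hVcard : ∀ l, (B ∪ V l).card = B.card + (V l).card := fun l =>
    card_union_of_disjoint (disjoint_right.2 fun e he => hVB l e he)
  -- the full elements
  obtain ⟨F, hF⟩ : ∃ F : Fin k → Finset E, F = fun l =>
      ((S \ B) \ V l).filter (fun e => ∀ m, m ≠ l → e ∈ V m) := ⟨_, rfl⟩
  have hFm : ∀ l e, e ∈ F l ↔ ((e ∈ S ∧ e ∉ B) ∧ e ∉ V l) ∧ ∀ m, m ≠ l → e ∈ V m := by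
    intro l e
    rw [hF]
    simp only [mem_filter, mem_sdiff]
  have hFd : ∀ l m, l ≠ m → Disjoint (F l) (F m) := by
    intro l m hlm
    rw [disjoint_left]
    intro e h1 h2
    exact ((hFm l e).1 h1).1.2 (((hFm m e).1 h2).2 l hlm)
  -- the bases
  have hJ : ∀ l, ∃ J : Finset E, V l ∪ F l ∪ (B ∩ S) ⊆ J ∧
      J ⊆ (V l ∪ F l ∪ (B ∩ S)) ∪ (B ∪ V l) ∧ (M l).Indep (J : Set E) ∧
      J.card = (B ∪ V l).card := by
    intro l
    have h1 : V l ∪ F l ∪ (B ∩ S) ⊆ S := by
      intro e he
      simp only [mem_union, mem_inter] at he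
      rcases he with (he | he) | he
      · exact (mem_sdiff.1 (hVS l he)).1
      · exact ((hFm l e).1 he).1.1.1
      · exact he.2
    exact ext_n ((hS l).subset (by exact_mod_cast h1)) (hVi l) _
      ((card_le_card h1).trans (hVc l)) le_rfl
  choose J hJ0 hJ1 hJi hJc using hJ
  obtain ⟨Y, hY⟩ : ∃ Y : Fin k → Finset E, Y = fun l => B \ J l := ⟨_, rfl⟩
  have hYm : ∀ l e, e ∈ Y l ↔ e ∈ B ∧ e ∉ J l := by
    intro l e
    rw [hY]
    simp only [mem_sdiff]
  have hYB : ∀ l, Y l ⊆ B := fun l e he => ((hYm l e).1 he).1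
  have hYS : ∀ l, ∀ e ∈ Y l, e ∉ S := by
    intro l e he heS
    obtain ⟨h1, h2⟩ := (hYm l e).1 he
    exact h2 (hJ0 l (mem_union_right _ (mem_inter.2 ⟨h1, heS⟩)))
  have hYF : ∀ l, (Y l).card = (F l).card := by
    intro l
    have h1 : J l = (B ∩ J l) ∪ (V l ∪ F l) := by
      ext e
      have a1 := @hJ0 l e
      have a2 := @hJ1 l e
      simp only [mem_union, mem_inter] at a1 a2 ⊢
      tauto
    have h2 : Disjoint (B ∩ J l) (V l ∪ F l) := by
      rw [disjoint_left]
      intro e h3 h4
      rw [mem_inter] at h3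
      rcases mem_union.1 h4 with h4 | h4
      · exact hVB l e h4 h3.1
      · exact ((hFm l e).1 h4).1.1.2 h3.1
    have h3 : Disjoint (V l) (F l) := by
      rw [disjoint_left]
      intro e h4 h5
      exact ((hFm l e).1 h5).1.2 h4
    have h4 : (J l).card = (B ∩ J l).card + ((V l).card + (F l).card) := by
      conv_lhs => rw [h1]
      rw [card_union_of_disjoint h2, card_union_of_disjoint h3]
    have h5 := card_sdiff_add_card_inter B (J l)
    have h6 : (Y l).card = (B \ J l).card := by rw [hY]
    have h7 := hJc l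
    have h8 := hVcard l
    omega
  -- the full elements exchange
  have hex : ∀ l, ∀ y ∈ Y l, ∃ x ∈ F l, (M l).Indep ((insert x ((B ∪ V l).erase y) : Finset E) : Set E) := by
    intro l y hy
    obtain ⟨hyB, hyJ⟩ := (hYm l y).1 hy
    have hyU : y ∈ B ∪ V l := mem_union_left _ hyB
    have h1 : (M l).Indep (((B ∪ V l).erase y : Finset E) : Set E) :=
      (hVi l).subset (by exact_mod_cast erase_subset _ _)
    have hlt : (((B ∪ V l).erase y : Finset E) : Set E).encard < (J l : Set E).encard := by
      rw [Set.encard_coe_eq_coe_finsetCard, Set.encard_coe_eq_coe_finsetCard]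
      have : ((B ∪ V l).erase y).card < (J l).card := by
        rw [hJc l]
        exact card_erase_lt_of_mem hyU
      exact_mod_cast this
    obtain ⟨x, hx, hxi⟩ := h1.augment (hJi l) hlt
    have hxJ : x ∈ J l := by exact_mod_cast hx.1
    have hxn : x ∉ (B ∪ V l).erase y := fun h => hx.2 (by exact_mod_cast h)
    have hxy : x ≠ y := fun h => hyJ (h ▸ hxJ)
    have hxU : x ∉ B ∪ V l := fun h => hxn (mem_erase.2 ⟨hxy, h⟩)
    refine ⟨x, ?_, by rw [coe_insert]; exact hxi⟩
    have a2 := hJ1 l hxJ
    simp only [mem_union, mem_inter] at a2 hxU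
    tauto
  have hYd : ∀ l m, l ≠ m → Disjoint (Y l) (Y m) := by
    intro l m hlm
    rw [disjoint_left]
    intro y hyl hym
    obtain ⟨x, hx, hxi⟩ := hex l y hyl
    obtain ⟨x', hx', hxi'⟩ := hex m y hym
    have hyB := hYB l hyl
    obtain ⟨⟨⟨hxS, hxB⟩, hxV⟩, hxa⟩ := (hFm l x).1 hx
    obtain ⟨⟨⟨hxS', hxB'⟩, hxV'⟩, hxa'⟩ := (hFm m x').1 hx'
    have hxx : x ≠ x' := fun h => disjoint_left.1 (hFd l m hlm) hx (h ▸ hx')
    have hxy : x ≠ y := fun h => hxB (h ▸ hyB)
    have hxy' : x' ≠ y := fun h => hxB' (h ▸ hyB)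
    have h1 := hno {x, x'} (by
      intro e he
      rw [mem_insert, mem_singleton] at he
      rw [mem_sdiff]
      rcases he with rfl | rfl
      · exact ⟨hxS, hxB⟩
      · exact ⟨hxS', hxB'⟩) (card_le_two.trans hs2)
      (insert x (insert x' (B.erase y))) (by
        intro e he
        simp only [mem_insert, mem_erase, mem_union, mem_singleton] at he ⊢
        tauto) (by
        intro j
        by_cases hj : j = l
        · subst hj
          refine hxi.subset ?_
          have : insert x (insert x' (B.erase y)) ⊆ insert x ((B ∪ V j).erase y) := by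
            have := hxa' j hlm
            intro e he
            simp only [mem_insert, mem_erase, mem_union] at he ⊢
            rcases he with rfl | rfl | he
            · exact Or.inl rfl
            · exact Or.inr ⟨hxy', Or.inr this⟩
            · exact Or.inr ⟨he.1, Or.inl he.2⟩
          exact_mod_cast this
        · by_cases hj' : j = m
          · subst hj'
            refine hxi'.subset ?_
            have : insert x (insert x' (B.erase y)) ⊆ insert x' ((B ∪ V j).erase y) := by
              have := hxa j (Ne.symm hlm)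
              intro e he
              simp only [mem_insert, mem_erase, mem_union] at he ⊢
              rcases he with rfl | rfl | he
              · exact Or.inr ⟨hxy, Or.inr this⟩
              · exact Or.inl rfl
              · exact Or.inr ⟨he.1, Or.inl he.2⟩
            exact_mod_cast this
          · refine (hVi j).subset ?_
            have : insert x (insert x' (B.erase y)) ⊆ B ∪ V j := by
              have a1 := hxa j hj
              have a2 := hxa' j hj'
              intro e he
              simp only [mem_insert, mem_erase, mem_union] at he ⊢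
              rcases he with rfl | rfl | he
              · exact Or.inr a1
              · exact Or.inr a2
              · exact Or.inl he.2
            exact_mod_cast this)
    have h2 : x' ∉ B.erase y := fun h => hxB' (mem_of_mem_erase h)
    have h3 : x ∉ insert x' (B.erase y) := by
      intro h
      rcases mem_insert.1 h with h | h
      · exact hxx h
      · exact hxB (mem_of_mem_erase h)
    rw [card_insert_of_notMem h3, card_insert_of_notMem h2, card_erase_of_mem hyB] at h1
    have h4 : 0 < B.card := card_pos.2 ⟨y, hyB⟩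
    omega
  -- the unions
  obtain ⟨FF, hFF⟩ : ∃ FF : Finset E, FF = univ.biUnion F := ⟨_, rfl⟩
  obtain ⟨YY, hYY⟩ : ∃ YY : Finset E, YY = univ.biUnion Y := ⟨_, rfl⟩
  have hFFm : ∀ e, e ∈ FF ↔ ∃ l, e ∈ F l := fun e => by rw [hFF]; simp
  have hYYm : ∀ e, e ∈ YY ↔ ∃ l, e ∈ Y l := fun e => by rw [hYY]; simp
  have hFc : FF.card = ∑ l, (F l).card := by
    rw [hFF]
    exact card_biUnion fun l _ m _ hlm => hFd l m hlm
  have hYc : YY.card = ∑ l, (Y l).card := by
    rw [hYY]
    exact card_biUnion fun l _ m _ hlm => hYd l m hlm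
  have hYF' : YY.card = FF.card := by
    rw [hFc, hYc]
    exact sum_congr rfl fun l _ => hYF l
  have hFFSB : FF ⊆ S \ B := by
    intro e he
    obtain ⟨l, hl⟩ := (hFFm e).1 he
    exact mem_sdiff.2 ((hFm l e).1 hl).1.1
  have hYYB : YY ⊆ B := by
    intro e he
    obtain ⟨l, hl⟩ := (hYYm e).1 he
    exact hYB l hl
  have hYYS : ∀ e ∈ YY, e ∉ S := by
    intro e he
    obtain ⟨l, hl⟩ := (hYYm e).1 he
    exact hYS l e hl
  have hFV : ∀ l, ∀ e ∈ FF, e ∉ F l → e ∈ V l := by
    intro l e he hel
    obtain ⟨m, hm⟩ := (hFFm e).1 he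
    have hml : m ≠ l := fun h => hel (h ▸ hm)
    exact ((hFm m e).1 hm).2 l (Ne.symm hml)
  -- counting
  have hc1 : ∀ e ∈ S \ B, ∃ l, e ∉ V l := by
    intro e he
    by_contra hall
    push Not at hall
    have heB := (mem_sdiff.1 he).2
    have h1 := hno {e} (singleton_subset_iff.2 he) (by rw [card_singleton]; exact hs1)
      (insert e B) (by
        intro x hx
        simp only [mem_insert, mem_union, mem_singleton] at hx ⊢
        tauto) (by
        intro i
        refine (hVi i).subset ?_
        have : insert e B ⊆ B ∪ V i :=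
          insert_subset (mem_union_right _ (hall i)) subset_union_left
        exact_mod_cast this)
    rw [card_insert_of_notMem heB] at h1
    omega
  have hcount : 2 * (S \ B).card ≤ ∑ l, ((S \ B) \ V l).card + FF.card := by
    have h1 : ∑ l, ((S \ B) \ V l).card =
        ∑ e ∈ S \ B, (univ.filter (fun l => e ∉ V l)).card := by
      have h2 : ∀ l, ((S \ B) \ V l).card = ∑ e ∈ S \ B, if e ∉ V l then 1 else 0 := by
        intro l
        rw [← card_filter]
        congr 1
        ext e
        simp only [mem_sdiff, mem_filter]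
      have h3 : ∀ e, (univ.filter (fun l => e ∉ V l)).card = ∑ l, if e ∉ V l then 1 else 0 :=
        fun e => card_filter _ _
      rw [sum_congr rfl fun l _ => h2 l, sum_comm]
      exact sum_congr rfl fun e _ => (h3 e).symm
    have h4 : FF.card = ∑ e ∈ S \ B, if e ∈ FF then 1 else 0 := by
      rw [← card_filter]
      congr 1
      ext e
      rw [mem_filter]
      exact ⟨fun h => ⟨hFFSB h, h⟩, fun h => h.2⟩
    rw [h1, h4, ← sum_add_distrib, mul_comm, ← smul_eq_mul, ← sum_const]
    refine sum_le_sum fun e he => ?_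
    obtain ⟨l, hl⟩ := hc1 e he
    have hlm : l ∈ univ.filter (fun l => e ∉ V l) := mem_filter.2 ⟨mem_univ l, hl⟩
    by_cases hef : e ∈ FF
    · rw [if_pos hef]
      have : 1 ≤ (univ.filter (fun l => e ∉ V l)).card := card_pos.2 ⟨l, hlm⟩
      omega
    · rw [if_neg hef, add_zero]
      have h5 : ∃ m, m ≠ l ∧ e ∉ V m := by
        by_contra hall
        push Not at hall
        exact hef ((hFFm e).2 ⟨l, (hFm l e).2 ⟨⟨mem_sdiff.1 he, hl⟩, hall⟩⟩)
      obtain ⟨m, hml, hm⟩ := h5
      have hmm : m ∈ univ.filter (fun l => e ∉ V l) := mem_filter.2 ⟨mem_univ m, hm⟩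
      exact one_lt_card.2 ⟨m, hmm, l, hlm, hml⟩
  have hDl : ∀ l, ((S \ B) \ V l).card + (S ∩ B).card ≤ B.card := by
    intro l
    have h1 := card_sdiff_add_card_inter S B
    have h2 := hVc l
    have h3 := hVcard l
    have h4 := card_sdiff_add_card_eq_card (hVS l)
    omega
  have hSk : 2 * S.card ≤ k * B.card + FF.card := by
    have h1 := card_sdiff_add_card_inter S B
    have h2 : ∑ l : Fin k, (((S \ B) \ V l).card + (S ∩ B).card) ≤ ∑ _l : Fin k, B.card :=
      sum_le_sum fun l _ => hDl l
    rw [sum_add_distrib, sum_const, sum_const, card_univ, Fintype.card_fin, smul_eq_mul,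
      smul_eq_mul] at h2
    have h3 : 2 * (S ∩ B).card ≤ k * (S ∩ B).card := Nat.mul_le_mul_right _ hk
    omega
  -- the contraction
  have hFi : ∀ l, (M l).Indep (FF : Set E) := fun l =>
    (hS l).subset (by exact_mod_cast hFFSB.trans sdiff_subset)
  have hB1c : (B \ YY).card = B.card - FF.card := by
    rw [card_sdiff_of_subset hYYB, hYF']
  have hS1c : (S \ FF).card = S.card - FF.card :=
    card_sdiff_of_subset (hFFSB.trans sdiff_subset)
  have hFB : FF.card ≤ B.card := hYF' ▸ card_le_card hYYB
  have hFS : FF.card ≤ S.card := card_le_card (hFFSB.trans sdiff_subset)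
  have hJsub : ∀ l, (B \ Y l) ∪ FF ⊆ J l := by
    intro l e he
    rw [mem_union, mem_sdiff] at he
    rcases he with he | he
    · by_contra hJ
      exact he.2 ((hYm l e).2 ⟨he.1, hJ⟩)
    · by_cases hel : e ∈ F l
      · exact hJ0 l (mem_union_left _ (mem_union_right _ hel))
      · exact hJ0 l (mem_union_left _ (mem_union_left _ (hFV l e he hel)))
  by_cases hcase : β * ((B \ YY).card : ℝ) < ((S \ FF).card : ℝ)
  · obtain ⟨X0, hX0, hX0s, B1, hB1, hB1i, hB1c'⟩ := H E (fun l => (M l).contract (FF : Set E))
      (B \ YY) (S \ FF) (by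
        intro l
        rw [(hFi l).contract_indep_iff]
        refine ⟨?_, (hJi l).subset ?_⟩
        · rw [disjoint_coe, disjoint_left]
          intro e h1 h2
          exact (mem_sdiff.1 (hFFSB h2)).2 (mem_sdiff.1 h1).1
        · have : (B \ YY) ∪ FF ⊆ J l := by
            refine subset_trans ?_ (hJsub l)
            refine union_subset_union (sdiff_subset_sdiff subset_rfl ?_) subset_rfl
            intro e he
            exact (hYYm e).2 ⟨l, he⟩
          exact_mod_cast this) (by
        intro l
        rw [(hFi l).contract_indep_iff]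
        refine ⟨?_, (hS l).subset ?_⟩
        · rw [disjoint_coe]
          exact sdiff_disjoint
        · have : (S \ FF) ∪ FF ⊆ S :=
            union_subset sdiff_subset (hFFSB.trans sdiff_subset)
          exact_mod_cast this) hcase
    have hB1F : ∀ l, (M l).Indep ((B1 ∪ FF : Finset E) : Set E) := by
      intro l
      have := ((hFi l).contract_indep_iff.1 (hB1i l)).2
      rw [coe_union]
      exact this
    obtain ⟨X, hX⟩ : ∃ X : Finset E, X = B1 \ (B \ YY) := ⟨_, rfl⟩
    obtain ⟨W, hW⟩ : ∃ W : Finset E, W = (B \ YY) \ B1 := ⟨_, rfl⟩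
    have hXm : ∀ e, e ∈ X ↔ e ∈ B1 ∧ ¬ (e ∈ B ∧ e ∉ YY) := fun e => by
      rw [hX]; simp only [mem_sdiff]
    have hWm : ∀ e, e ∈ W ↔ (e ∈ B ∧ e ∉ YY) ∧ e ∉ B1 := fun e => by
      rw [hW]; simp only [mem_sdiff]
    have hWX : W.card < X.card := by
      have e1 := card_sdiff_add_card_inter B1 (B \ YY)
      have e2 := card_sdiff_add_card_inter (B \ YY) B1
      rw [inter_comm] at e2
      rw [hX, hW]
      omega
    have hXX0 : X ⊆ X0 := by
      intro e he
      rw [hX, mem_sdiff] at he
      have := hB1 he.1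
      rw [mem_union] at this
      exact this.resolve_left he.2
    have hXs : X.card ≤ s := (card_le_card hXX0).trans hX0s
    have hXS : ∀ e ∈ X, (e ∈ S ∧ e ∉ FF) ∧ e ∉ B := by
      intro e he
      have h1 := hX0 (hXX0 he)
      simp only [mem_sdiff] at h1
      refine ⟨h1.1, fun heB => ?_⟩
      have : e ∈ YY := by
        by_contra h2
        exact h1.2 ⟨heB, h2⟩
      exact hYYS e this h1.1.1
    -- the lifts
    have hl1 : ∀ l, ∃ R : Finset E, R ⊆ YY ∧ R.card ≤ X.card ∧
        ∀ T : Finset E, (∀ e ∈ T, ((e ∈ B ∧ e ∉ W) ∨ e ∈ X ∨ (e ∈ FF ∧ e ∉ F l)) ∧ e ∉ R) →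
          (M l).Indep (T : Set E) := by
      intro l
      obtain ⟨R, hR1, hR2, hR3⟩ := lift (M := M l) (K0 := ((B \ YY) \ W) ∪ X ∪ (FF \ F l))
        (K1 := (B \ W) ∪ (FF \ F l)) (X := X)
        ((hB1F l).subset (by
          have : ((B \ YY) \ W) ∪ X ∪ (FF \ F l) ⊆ B1 ∪ FF := by
            intro e he
            have a1 := hXm e
            have a2 := hWm e
            simp only [mem_union, mem_sdiff] at he ⊢
            tauto
          exact_mod_cast this))
        ((hVi l).subset (by
          have : (B \ W) ∪ (FF \ F l) ⊆ B ∪ V l := by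
            intro e he
            have a1 := hFV l e
            simp only [mem_union, mem_sdiff] at he ⊢
            tauto
          exact_mod_cast this)) (by
          intro e he
          simp only [mem_union, mem_sdiff] at he
          tauto)
      refine ⟨R, ?_, hR2, ?_⟩
      · intro e he
        have := hR1 he
        simp only [mem_union, mem_sdiff] at this
        tauto
      · intro T hT
        refine hR3.subset ?_
        have : T ⊆ (((B \ YY) \ W) ∪ X ∪ (FF \ F l) ∪ ((B \ W) ∪ (FF \ F l))) \ R := by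
          intro e he
          have := hT e he
          simp only [mem_union, mem_sdiff]
          tauto
        exact_mod_cast this
    have hl2 : ∀ l, ∃ R : Finset E, R ⊆ YY ∧ R.card ≤ X.card ∧
        ∀ T : Finset E, (∀ e ∈ T, ((e ∈ B ∧ e ∉ Y l ∧ e ∉ W) ∨ e ∈ X ∨ e ∈ FF) ∧ e ∉ R) →
          (M l).Indep (T : Set E) := by
      intro l
      obtain ⟨R, hR1, hR2, hR3⟩ := lift (M := M l) (K0 := ((B \ YY) \ W) ∪ X ∪ FF)
        (K1 := ((B \ Y l) \ W) ∪ FF) (X := X)
        ((hB1F l).subset (by
          have : ((B \ YY) \ W) ∪ X ∪ FF ⊆ B1 ∪ FF := by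
            intro e he
            have a1 := hXm e
            have a2 := hWm e
            simp only [mem_union, mem_sdiff] at he ⊢
            tauto
          exact_mod_cast this))
        ((hJi l).subset (by
          have : ((B \ Y l) \ W) ∪ FF ⊆ J l := by
            refine subset_trans ?_ (hJsub l)
            exact union_subset_union sdiff_subset subset_rfl
          exact_mod_cast this)) (by
          intro e he
          have a1 : e ∈ Y l → e ∈ YY := fun h => (hYYm e).2 ⟨l, h⟩
          simp only [mem_union, mem_sdiff] at he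
          tauto)
      refine ⟨R, ?_, hR2, ?_⟩
      · intro e he
        have := hR1 he
        simp only [mem_union, mem_sdiff] at this
        tauto
      · intro T hT
        refine hR3.subset ?_
        have : T ⊆ (((B \ YY) \ W) ∪ X ∪ FF ∪ (((B \ Y l) \ W) ∪ FF)) \ R := by
          intro e he
          have := hT e he
          simp only [mem_union, mem_sdiff]
          tauto
        exact_mod_cast this
    choose R hRY hRc hRi using hl1
    choose R' hRY' hRc' hRi' using hl2
    obtain ⟨Z, hZ⟩ : ∃ Z : Finset E, Z = univ.biUnion (fun l => R l ∪ R' l) := ⟨_, rfl⟩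
    have hZm : ∀ e, e ∈ Z ↔ ∃ l, e ∈ R l ∨ e ∈ R' l := fun e => by rw [hZ]; simp
    have hZY : Z ⊆ YY := by
      intro e he
      obtain ⟨l, hl⟩ := (hZm e).1 he
      rcases hl with hl | hl
      · exact hRY l hl
      · exact hRY' l hl
    have hZc : Z.card ≤ 2 * k * X.card := by
      rw [hZ]
      refine card_biUnion_le.trans ?_
      calc ∑ l, (R l ∪ R' l).card ≤ ∑ _l : Fin k, 2 * X.card := by
            refine sum_le_sum fun l _ => (card_union_le _ _).trans ?_
            have := hRc l
            have := hRc' l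
            omega
        _ = 2 * k * X.card := by
            rw [sum_const, card_univ, Fintype.card_fin, smul_eq_mul]
            ring
    have hWY : ∀ e ∈ W, e ∉ YY := fun e he => ((hWm e).1 he).1.2
    have hWB : W ⊆ B := fun e he => ((hWm e).1 he).1.1
    -- the new elements
    have hX' : ∀ l, ∃ X' : Finset E, X' ⊆ F l ∧ X'.card = (Y l ∩ Z).card ∧
        (M l).Indep (((B \ W) \ Z ∪ X ∪ (FF \ F l) ∪ X' : Finset E) : Set E) := by
      intro l
      have hQi : (M l).Indep (((B \ W) \ Z ∪ X ∪ (FF \ F l) : Finset E) : Set E) := by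
        refine hRi l _ ?_
        intro e he
        have a1 : e ∈ R l → e ∈ Z := fun h => (hZm e).2 ⟨l, Or.inl h⟩
        have a2 : e ∈ R l → e ∈ B := fun h => hYYB (hRY l h)
        have a3 := hXS e
        have a4 := @hFFSB e
        simp only [mem_union, mem_sdiff] at he a4
        tauto
      have hTi : (M l).Indep ((((B \ Y l) \ W) \ Z ∪ X ∪ FF : Finset E) : Set E) := by
        refine hRi' l _ ?_
        intro e he
        have a1 : e ∈ R' l → e ∈ Z := fun h => (hZm e).2 ⟨l, Or.inr h⟩
        have a2 : e ∈ R' l → e ∈ B := fun h => hYYB (hRY' l h)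
        have a3 := hXS e
        have a4 := @hFFSB e
        simp only [mem_union, mem_sdiff] at he a4
        tauto
      have hXF : Disjoint X FF := by
        rw [disjoint_left]
        intro e h1 h2
        exact (hXS e h1).1.2 h2
      have hd1 : Disjoint ((B \ W) \ Z) X := by
        rw [disjoint_left]
        intro e h1 h2
        simp only [mem_sdiff] at h1
        exact (hXS e h2).2 h1.1.1
      have hd2 : Disjoint ((B \ W) \ Z ∪ X) (FF \ F l) := by
        rw [disjoint_left]
        intro e h1 h2
        have a3 := hXS e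
        have a4 := @hFFSB e
        simp only [mem_union, mem_sdiff] at h1 h2 a4
        tauto
      have hd3 : Disjoint (((B \ Y l) \ W) \ Z) X := by
        rw [disjoint_left]
        intro e h1 h2
        simp only [mem_sdiff] at h1
        exact (hXS e h2).2 h1.1.1.1
      have hd4 : Disjoint (((B \ Y l) \ W) \ Z ∪ X) FF := by
        rw [disjoint_left]
        intro e h1 h2
        have a3 := hXS e
        have a4 := @hFFSB e
        simp only [mem_union, mem_sdiff] at h1 h2 a4
        tauto
      have hQc : ((B \ W) \ Z ∪ X ∪ (FF \ F l)).card =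
          ((B \ W) \ Z).card + X.card + (FF \ F l).card := by
        rw [card_union_of_disjoint hd2, card_union_of_disjoint hd1]
      have hTc : (((B \ Y l) \ W) \ Z ∪ X ∪ FF).card =
          (((B \ Y l) \ W) \ Z).card + X.card + FF.card := by
        rw [card_union_of_disjoint hd4, card_union_of_disjoint hd3]
      have hFl : F l ⊆ FF := fun e he => (hFFm e).2 ⟨l, he⟩
      have hYl : Y l ⊆ YY := fun e he => (hYYm e).2 ⟨l, he⟩
      have hc3 : ((B \ W) \ Z).card = (((B \ Y l) \ W) \ Z).card + (Y l \ Z).card := by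
        rw [← card_union_of_disjoint]
        · congr 1
          ext e
          have a1 := @hYB l e
          have a2 : e ∈ W → e ∉ Y l := fun h h' => hWY e h (hYl h')
          simp only [mem_union, mem_sdiff]
          tauto
        · rw [disjoint_left]
          intro e h1 h2
          simp only [mem_sdiff] at h1 h2
          exact h1.1.1.2 h2.1
      have hc4 := card_sdiff_add_card_inter (Y l) Z
      have hc5 := card_sdiff_add_card_eq_card hFl
      have hc6 := hYF l
      have hTQ : (((B \ Y l) \ W) \ Z ∪ X ∪ FF).card =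
          ((B \ W) \ Z ∪ X ∪ (FF \ F l)).card + (Y l ∩ Z).card := by
        omega
      obtain ⟨J', h1, h2, h3, h4⟩ := ext_n hQi hTi (((B \ Y l) \ W) \ Z ∪ X ∪ FF).card
        (by omega) le_rfl
      refine ⟨J' \ ((B \ W) \ Z ∪ X ∪ (FF \ F l)), ?_, ?_, ?_⟩
      · intro e he
        have a1 := @h2 e
        simp only [mem_union, mem_sdiff] at he a1
        tauto
      · rw [card_sdiff_of_subset h1]
        omega
      · rw [union_sdiff_of_subset h1]
        exact h3
    choose X' hX'F hX'c hX'i using hX'
    obtain ⟨XX, hXXd⟩ : ∃ XX : Finset E, XX = univ.biUnion X' := ⟨_, rfl⟩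
    have hXXm : ∀ e, e ∈ XX ↔ ∃ l, e ∈ X' l := fun e => by rw [hXXd]; simp
    have hXXF : XX ⊆ FF := by
      intro e he
      obtain ⟨l, hl⟩ := (hXXm e).1 he
      exact (hFFm e).2 ⟨l, hX'F l hl⟩
    have hXXc : XX.card = Z.card := by
      have h1 : XX.card = ∑ l, (X' l).card := by
        rw [hXXd]
        refine card_biUnion fun l _ m _ hlm => ?_
        exact (hFd l m hlm).mono (hX'F l) (hX'F m)
      have h2 : Z = univ.biUnion (fun l => Y l ∩ Z) := by
        ext e
        simp only [mem_biUnion, mem_univ, true_and, mem_inter]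
        constructor
        · intro he
          obtain ⟨l, hl⟩ := (hYYm e).1 (hZY he)
          exact ⟨l, hl, he⟩
        · rintro ⟨l, -, he⟩
          exact he
      have h3 : Z.card = ∑ l, (Y l ∩ Z).card := by
        conv_lhs => rw [h2]
        refine card_biUnion fun l _ m _ hlm => ?_
        exact (hYd l m hlm).mono inter_subset_left inter_subset_left
      rw [h1, h3]
      exact sum_congr rfl fun l _ => hX'c l
    have hfin := hno (X ∪ XX) (by
      intro e he
      rcases mem_union.1 he with he | he
      · exact mem_sdiff.2 ⟨(hXS e he).1.1, (hXS e he).2⟩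
      · exact hFFSB (hXXF he)) (by
      refine (card_union_le _ _).trans ?_
      rw [hXXc]
      have h1 : X.card + Z.card ≤ (2 * k + 1) * X.card := by
        have := hZc
        ring_nf at this ⊢
        omega
      exact h1.trans (Nat.mul_le_mul_left _ hXs)) ((B \ W) \ Z ∪ X ∪ XX) (by
      intro e he
      simp only [mem_union, mem_sdiff] at he ⊢
      tauto) (by
      intro l
      refine (hX'i l).subset ?_
      have : (B \ W) \ Z ∪ X ∪ XX ⊆ (B \ W) \ Z ∪ X ∪ (FF \ F l) ∪ X' l := by
        intro e he
        rcases mem_union.1 he with he | he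
        · exact mem_union_left _ (mem_union_left _ he)
        · obtain ⟨m, hm⟩ := (hXXm e).1 he
          by_cases hml : m = l
          · subst hml
            exact mem_union_right _ hm
          · refine mem_union_left _ (mem_union_right _ (mem_sdiff.2 ⟨hXXF he, fun hl => ?_⟩))
            exact disjoint_left.1 (hFd m l hml) (hX'F m hm) hl
      exact_mod_cast this)
    have hd5 : Disjoint ((B \ W) \ Z) X := by
      rw [disjoint_left]
      intro e h1 h2
      simp only [mem_sdiff] at h1
      exact (hXS e h2).2 h1.1.1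
    have hd6 : Disjoint ((B \ W) \ Z ∪ X) XX := by
      rw [disjoint_left]
      intro e h1 h2
      have a3 := hXS e
      have a4 := @hFFSB e (hXXF h2)
      have a5 := hXXF h2
      simp only [mem_union, mem_sdiff] at h1 a4
      tauto
    rw [card_union_of_disjoint hd6, card_union_of_disjoint hd5, hXXc] at hfin
    have h7 : Z ⊆ B \ W := by
      intro e he
      exact mem_sdiff.2 ⟨hYYB (hZY he), fun h => hWY e h (hZY he)⟩
    have h8 := card_sdiff_add_card_eq_card h7
    have h9 := card_sdiff_add_card_eq_card hWB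
    omega
  · -- arithmetic
    rw [not_lt, hB1c, hS1c, Nat.cast_sub hFB, Nat.cast_sub hFS] at hcase
    have h1 : (2 : ℝ) * S.card ≤ k * B.card + FF.card := by exact_mod_cast hSk
    have h2 : (0 : ℝ) < 2 * β - 1 := by linarith
    rw [div_mul_eq_mul_div, div_lt_iff₀ h2] at hlt
    nlinarith [mul_le_mul_of_nonneg_left h1 (show (0 : ℝ) ≤ β - 1 by linarith)]

end Pool.Agent.Helper11.LS
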