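import Pool.Agent.Helper11.LS.Gen

/-!
# LS: a system of forms contains a line as soon as a special system has an unobstructed one

`F c` is the given system, `G c` the special one. `A Z`, `B Z` is a chart of lines, and the
coefficients of the special system along the line `A Z + X B Z` are the coordinates of `Z`
(hypothesis `hspec`). Then the deformed system `G + T F` has a line over the power series (fixed
point), a valuation ring of the field of fractions which contains `k` but not `T` gives a line of
the system `F` over its residue field, and the Nullstellensatz a line over `k`.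
-/

set_option autoImplicit false

namespace Pool.Agent.Helper11.LS

open Polynomial

universe u

/-- the restriction of a form to the line through `a` and `b` -/
noncomputable def rest {k : Type u} [Field k] {R : Type u} [CommRing R] [Algebra k R] {N : ℕ}
    (a b : Fin N → R) (F : MvPolynomial (Fin N) k) : R[X] :=
  MvPolynomial.aeval (fun l => (C (a l) + X * C (b l) : R[X])) F

theorem rest_dvd {k : Type u} [Field k] {R : Type u} [CommRing R] [Algebra k R] {N : ℕ} (t : R)
    (a b a' b' : Fin N → R) (ha : ∀ l, t ∣ a l - a' l) (hb : ∀ l, t ∣ b l - b' l)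
    (F : MvPolynomial (Fin N) k) : (C t : R[X]) ∣ rest a b F - rest a' b' F := by
  have hlin : ∀ l, (C t : R[X]) ∣ (C (a l) + X * C (b l)) - (C (a' l) + X * C (b' l)) := by
    intro l
    have h1 : (C (a l) + X * C (b l)) - (C (a' l) + X * C (b' l)) =
        (C (a l - a' l) + X * C (b l - b' l) : R[X]) := by
      rw [C_sub, C_sub]
      ring
    rw [h1]
    exact dvd_add (map_dvd C (ha l)) (Dvd.dvd.mul_left (map_dvd C (hb l)) _)
  induction F using MvPolynomial.induction_on with
  | C c => simp [rest]
  | add p q hp hq =>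
    have : rest a b (p + q) - rest a' b' (p + q) =
        (rest a b p - rest a' b' p) + (rest a b q - rest a' b' q) := by
      simp only [rest, map_add]
      ring
    rw [this]
    exact dvd_add hp hq
  | mul_X p l hp =>
    have : rest a b (p * MvPolynomial.X l) - rest a' b' (p * MvPolynomial.X l) =
        (rest a b p - rest a' b' p) * (C (a l) + X * C (b l)) +
          rest a' b' p * ((C (a l) + X * C (b l)) - (C (a' l) + X * C (b' l))) := by
      simp only [rest, map_mul, MvPolynomial.aeval_X]
      ring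
    rw [this]
    exact dvd_add (Dvd.dvd.mul_right hp _) (Dvd.dvd.mul_left (hlin l) _)

theorem rest_deg {k : Type u} [Field k] {R : Type u} [CommRing R] [Nontrivial R] [Algebra k R]
    {N d : ℕ} (F : MvPolynomial (Fin N) k) (hF : F.IsHomogeneous d) (a b : Fin N → R) :
    (rest a b F).natDegree ≤ d := by
  have h1 : rest a b F = MvPolynomial.aeval
      (fun l => (C (a l) + X * C (b l) : R[X])) (MvPolynomial.map (algebraMap k R) F) := by
    rw [MvPolynomial.aeval_map_algebraMap]
    rfl
  rw [h1]
  refine (MvPolynomial.aeval_natDegree_le (m := d) (n := 1) _ ?_ _ ?_).trans (by omega)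
  · exact (hF.map _).totalDegree_le
  · intro l
    refine (natDegree_add_le _ _).trans (max_le ?_ ?_)
    · rw [natDegree_C]
      exact Nat.zero_le _
    · refine natDegree_mul_le.trans ?_
      rw [natDegree_C, add_zero]
      exact natDegree_X_le

theorem fix_sys {k : Type u} [Field k] {N r m : ℕ} (d : Fin r → ℕ)
    (F G : Fin r → MvPolynomial (Fin N) k) (hF : ∀ c, (F c).IsHomogeneous (d c))
    (hG : ∀ c, (G c).IsHomogeneous (d c))
    (A B : (Fin m → PowerSeries k) → Fin N → PowerSeries k)
    (hA : ∀ (t : PowerSeries k) (Z Z' : Fin m → PowerSeries k), (∀ i, t ∣ Z i - Z' i) →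
      ∀ l, t ∣ A Z l - A Z' l)
    (hB : ∀ (t : PowerSeries k) (Z Z' : Fin m → PowerSeries k), (∀ i, t ∣ Z i - Z' i) →
      ∀ l, t ∣ B Z l - B Z' l)
    (e : Fin m → Fin r × ℕ) (he : ∀ c n, n ≤ d c → ∃ i, e i = (c, n))
    (hspec : ∀ Z i, (rest (A Z) (B Z) (G (e i).1)).coeff (e i).2 = Z i) :
    ∃ Z, ∀ c, rest (A Z) (B Z) (G c) + C PowerSeries.X * rest (A Z) (B Z) (F c) = 0 := by
  obtain ⟨Z, hZ⟩ := fix (fun Z i => - (rest (A Z) (B Z) (F (e i).1)).coeff (e i).2) (by
    intro n Z Z' h i
    have h1 := (C_dvd_iff_dvd_coeff _ _).1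
      (rest_dvd _ _ _ _ _ (hA _ Z Z' h) (hB _ Z Z' h) (F (e i).1)) (e i).2
    have h2 : - (rest (A Z) (B Z) (F (e i).1)).coeff (e i).2 -
        - (rest (A Z') (B Z') (F (e i).1)).coeff (e i).2 =
        - (rest (A Z) (B Z) (F (e i).1) - rest (A Z') (B Z') (F (e i).1)).coeff (e i).2 := by
      rw [coeff_sub]
      ring
    rw [h2]
    exact (dvd_neg).2 h1)
  refine ⟨Z, fun c => ?_⟩
  ext1 n
  simp only [coeff_add, coeff_C_mul, coeff_zero]
  by_cases hn : n ≤ d c
  · obtain ⟨i, hi⟩ := he c n hn
    have h1 := hspec Z i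
    have h2 := hZ i
    rw [hi] at h1 h2
    simp only at h1 h2
    rw [h1, h2]
    ring
  · rw [coeff_eq_zero_of_natDegree_lt (lt_of_le_of_lt (rest_deg (F c) (hF c) _ _) (not_le.1 hn)),
      coeff_eq_zero_of_natDegree_lt (lt_of_le_of_lt (rest_deg (G c) (hG c) _ _) (not_le.1 hn))]
    ring

private theorem map_rest {k : Type u} [Field k] {N : ℕ} (F : MvPolynomial (Fin N) k)
    (f : Fin N → (PowerSeries k)[X]) :
    Polynomial.map (algebraMap (PowerSeries k) (FractionRing (PowerSeries k)))
        (MvPolynomial.aeval f F) =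
      MvPolynomial.aeval
        (fun l => Polynomial.map (algebraMap (PowerSeries k) (FractionRing (PowerSeries k))) (f l))
        (MvPolynomial.map (algebraMap k (FractionRing (PowerSeries k))) F) := by
  induction F using MvPolynomial.induction_on with
  | C c =>
    rw [MvPolynomial.map_C, MvPolynomial.aeval_C, MvPolynomial.aeval_C,
      Polynomial.algebraMap_apply, Polynomial.algebraMap_apply, Polynomial.map_C,
      Algebra.algebraMap_self, RingHom.id_apply,
      ← IsScalarTower.algebraMap_apply k (PowerSeries k) (FractionRing (PowerSeries k))]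
  | add p q hp hq => simp only [map_add, Polynomial.map_add, hp, hq]
  | mul_X p i hp => simp only [map_mul, Polynomial.map_mul, hp, MvPolynomial.map_X,
      MvPolynomial.aeval_X]

private theorem eval_val {k : Type u} [Field k] {K : Type u} [Field K] [Algebra k K] {N : ℕ}
    (O : ValuationSubring K) (φ : k →+* O) (hφ : ∀ c, (φ c : K) = algebraMap k K c)
    (F : MvPolynomial (Fin N) k) (V : Fin N → O) :
    ((MvPolynomial.eval₂ φ V F : O) : K) =
      MvPolynomial.eval (fun l => (V l : K)) (MvPolynomial.map (algebraMap k K) F) := by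
  induction F using MvPolynomial.induction_on with
  | C c => rw [MvPolynomial.eval₂_C, MvPolynomial.map_C, MvPolynomial.eval_C, hφ]
  | add p q hp hq =>
    rw [MvPolynomial.eval₂_add, map_add, map_add, ← hp, ← hq]
    rfl
  | mul_X p i hp =>
    rw [MvPolynomial.eval₂_mul, MvPolynomial.eval₂_X, map_mul, map_mul, ← hp,
      MvPolynomial.map_X, MvPolynomial.eval_X]
    rfl

theorem res_sys {k : Type u} [Field k] [Infinite k] {N r : ℕ} [NeZero N] (d : Fin r → ℕ)
    (F G : Fin r → MvPolynomial (Fin N) k) (hF : ∀ c, (F c).IsHomogeneous (d c))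
    (hG : ∀ c, (G c).IsHomogeneous (d c)) (a b : Fin N → PowerSeries k) (i0 j0 : Fin N)
    (ha0 : a i0 = 1) (ha1 : a j0 = 0) (hb0 : b i0 = 0) (hb1 : b j0 = 1)
    (hab : ∀ c, rest a b (G c) + C PowerSeries.X * rest a b (F c) = 0) :
    ∃ (κ : Type u) (_ : Field κ) (_ : Algebra k κ) (i j : Fin N) (a b : Fin N → κ),
      a i = 1 ∧ a j = 0 ∧ b i = 0 ∧ b j = 1 ∧
      ∀ c, ∀ s t : k,
        MvPolynomial.aeval (fun l => algebraMap k κ s * a l + algebraMap k κ t * b l) (F c) = 0 := by
  classical
  let K := FractionRing (PowerSeries k)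
  let ι : PowerSeries k →+* K := algebraMap (PowerSeries k) K
  let T : K := ι PowerSeries.X
  let aK : Fin N → K := fun l => ι (a l)
  let bK : Fin N → K := fun l => ι (b l)
  let H : Fin r → MvPolynomial (Fin N) K := fun c => MvPolynomial.map (algebraMap k K) (G c) +
    MvPolynomial.C T * MvPolynomial.map (algebraMap k K) (F c)
  have hH : ∀ c, (H c).IsHomogeneous (d c) := fun c =>
    ((hG c).map _).add (((hF c).map _).C_mul T)
  have hfm : (fun l => Polynomial.map ι (C (a l) + X * C (b l) : (PowerSeries k)[X])) =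
      fun l => (C (aK l) + X * C (bK l) : K[X]) := by
    funext l
    simp only [Polynomial.map_add, Polynomial.map_mul, Polynomial.map_C, Polynomial.map_X, aK, bK]
  have hH0 : ∀ c, MvPolynomial.aeval (fun l => (C (aK l) + X * C (bK l) : K[X])) (H c) = 0 := by
    intro c
    have h := congrArg (Polynomial.map ι) (hab c)
    rw [rest, rest, Polynomial.map_add, Polynomial.map_mul, Polynomial.map_zero, Polynomial.map_C,
      map_rest, map_rest, hfm] at h
    rw [← h]
    simp only [H, map_add, map_mul, MvPolynomial.aeval_C, Polynomial.algebraMap_apply,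
      Algebra.algebraMap_self, RingHom.id_apply]
    rfl
  have : Infinite K := Infinite.of_injective (algebraMap k K) (algebraMap k K).injective
  have hline : ∀ c, ∀ s t : K, MvPolynomial.eval (s • aK + t • bK) (H c) = 0 :=
    fun c => hom_line (H c) (hH c) aK bK (hH0 c)
  have hlin : LinearIndependent K ![aK, bK] := by
    rw [LinearIndependent.pair_iff]
    intro s t hst
    have h0 := congrFun hst i0
    have h1 := congrFun hst j0
    simp only [Pi.add_apply, Pi.smul_apply, smul_eq_mul, Pi.zero_apply, aK, bK, ha0, hb0, ha1,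
      hb1, map_one, map_zero, mul_one, mul_zero, add_zero, zero_add] at h0 h1
    exact ⟨h0, h1⟩
  obtain ⟨O, hkO, hTO⟩ := Pool.Agent.Helper66.QL.exists_val k
  obtain ⟨i, j, a', b', ha', hb', hai, haj, hbi, hbj, α, β, γ, δ, hα, hγ⟩ :=
    norm_basis O aK bK hlin
  have hline' : ∀ c, ∀ s t : K, MvPolynomial.eval (s • a' + t • b') (H c) = 0 := by
    intro c s t
    have : s • a' + t • b' = (s * α + t * γ) • aK + (s * β + t * δ) • bK := by
      rw [hα, hγ]
      simp only [smul_add, add_smul, smul_smul]
      abel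
    rw [this]
    exact hline c _ _
  let φ : k →+* O := RingHom.codRestrict (algebraMap k K) O hkO
  have hφ : ∀ c, (φ c : K) = algebraMap k K c := fun c => rfl
  let A : Fin N → O := fun l => ⟨a' l, ha' l⟩
  let B : Fin N → O := fun l => ⟨b' l, hb' l⟩
  have hTi : T⁻¹ ∈ O := (O.mem_or_inv_mem T).resolve_left hTO
  let τ : O := ⟨T⁻¹, hTi⟩
  have hT0 : T ≠ 0 := by
    intro h
    exact hTO (by
      have : T ∈ O := by rw [h]; exact O.zero_mem
      exact this)
  have hτ : ¬ IsUnit τ := by
    intro h
    obtain ⟨v, hv⟩ := h.exists_right_inv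
    have h1 : T⁻¹ * (v : K) = 1 := congrArg Subtype.val hv
    have h2 : (v : K) = T := by
      have h3 := congrArg (fun y => T * y) h1
      simp only [← mul_assoc, mul_inv_cancel₀ hT0, one_mul, mul_one] at h3
      exact h3
    apply hTO
    have h4 : T ∈ O := by
      rw [← h2]
      exact v.2
    exact h4
  have hrel : ∀ c, ∀ s t : k,
      MvPolynomial.eval₂ φ (fun l => φ s * A l + φ t * B l) (F c) =
        -(τ * MvPolynomial.eval₂ φ (fun l => φ s * A l + φ t * B l) (G c)) := by
    intro c s t
    apply Subtype.ext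
    have e1 := eval_val O φ hφ (F c) (fun l => φ s * A l + φ t * B l)
    have e2 := eval_val O φ hφ (G c) (fun l => φ s * A l + φ t * B l)
    have e3 : (fun l => ((φ s * A l + φ t * B l : O) : K)) =
        algebraMap k K s • a' + algebraMap k K t • b' := by
      funext l
      rfl
    rw [e3] at e1 e2
    have e4 := hline' c (algebraMap k K s) (algebraMap k K t)
    simp only [H, map_add, map_mul, MvPolynomial.eval_C] at e4
    rw [← e1, ← e2] at e4
    show ((MvPolynomial.eval₂ φ (fun l => φ s * A l + φ t * B l) (F c) : O) : K) =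
      -(T⁻¹ * ((MvPolynomial.eval₂ φ (fun l => φ s * A l + φ t * B l) (G c) : O) : K))
    generalize ((MvPolynomial.eval₂ φ (fun l => φ s * A l + φ t * B l) (F c) : O) : K) = x at e4 ⊢
    generalize ((MvPolynomial.eval₂ φ (fun l => φ s * A l + φ t * B l) (G c) : O) : K) = y
      at e4 ⊢
    have e5 : T * x = -y := by linear_combination e4
    have e6 : x = T⁻¹ * (T * x) := by rw [← mul_assoc, inv_mul_cancel₀ hT0, one_mul]
    rw [e6, e5]
    ring
  let κ := IsLocalRing.ResidueField O
  let ψ : k →+* κ := (IsLocalRing.residue O).comp φ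
  let : Algebra k κ := ψ.toAlgebra
  refine ⟨κ, inferInstance, ψ.toAlgebra, i, j, fun l => IsLocalRing.residue O (A l),
    fun l => IsLocalRing.residue O (B l), ?_, ?_, ?_, ?_, ?_⟩
  · have : A i = 1 := Subtype.ext hai
    simp only [this, map_one]
  · have : A j = 0 := Subtype.ext haj
    simp only [this, map_zero]
  · have : B i = 0 := Subtype.ext hbi
    simp only [this, map_zero]
  · have : B j = 1 := Subtype.ext hbj
    simp only [this, map_one]
  · intro c s t
    have h1 : MvPolynomial.aeval (fun l => algebraMap k κ s * IsLocalRing.residue O (A l) +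
        algebraMap k κ t * IsLocalRing.residue O (B l)) (F c) =
        IsLocalRing.residue O (MvPolynomial.eval₂ φ (fun l => φ s * A l + φ t * B l) (F c)) := by
      rw [MvPolynomial.hom_eval₂, MvPolynomial.aeval_def]
      rfl
    have h2 : IsLocalRing.residue O τ = 0 := by
      rw [IsLocalRing.residue_eq_zero_iff]
      exact (IsLocalRing.mem_maximalIdeal τ).2 hτ
    show MvPolynomial.aeval (fun l => algebraMap k κ s * IsLocalRing.residue O (A l) +
        algebraMap k κ t * IsLocalRing.residue O (B l)) (F c) = 0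
    rw [h1, hrel, map_neg, map_mul, h2, zero_mul, neg_zero]

/-- the general theorem: a special system with an unobstructed line gives lines for all systems -/
theorem line_sys {k : Type u} [Field k] [IsAlgClosed k] {N r m : ℕ} [NeZero N] (d : Fin r → ℕ)
    (F G : Fin r → MvPolynomial (Fin N) k) (hF : ∀ c, (F c).IsHomogeneous (d c))
    (hG : ∀ c, (G c).IsHomogeneous (d c))
    (A B : (Fin m → PowerSeries k) → Fin N → PowerSeries k) (i0 j0 : Fin N)
    (hA0 : ∀ Z, A Z i0 = 1) (hA1 : ∀ Z, A Z j0 = 0) (hB0 : ∀ Z, B Z i0 = 0)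
    (hB1 : ∀ Z, B Z j0 = 1)
    (hA : ∀ (t : PowerSeries k) (Z Z' : Fin m → PowerSeries k), (∀ i, t ∣ Z i - Z' i) →
      ∀ l, t ∣ A Z l - A Z' l)
    (hB : ∀ (t : PowerSeries k) (Z Z' : Fin m → PowerSeries k), (∀ i, t ∣ Z i - Z' i) →
      ∀ l, t ∣ B Z l - B Z' l)
    (e : Fin m → Fin r × ℕ) (he : ∀ c n, n ≤ d c → ∃ i, e i = (c, n))
    (hspec : ∀ Z i, (rest (A Z) (B Z) (G (e i).1)).coeff (e i).2 = Z i) :
    ∃ a b : Fin N → k, LinearIndependent k ![a, b] ∧
      ∀ c, ∀ s t : k, MvPolynomial.eval (s • a + t • b) (F c) = 0 := by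
  have : Infinite k := IsAlgClosed.instInfinite
  obtain ⟨Z, hZ⟩ := fix_sys d F G hF hG A B hA hB e he hspec
  obtain ⟨κ, _, _, i, j, a, b, hai, haj, hbi, hbj, hab⟩ :=
    res_sys d F G hF hG (A Z) (B Z) i0 j0 (hA0 Z) (hA1 Z) (hB0 Z) (hB1 Z) hZ
  let g : k → k → Fin N → MvPolynomial (Fin N ⊕ Fin N) k := fun s t l =>
    MvPolynomial.C s * MvPolynomial.X (Sum.inl l) + MvPolynomial.C t * MvPolynomial.X (Sum.inr l)
  let S : Set (MvPolynomial (Fin N ⊕ Fin N) k) :=
    {MvPolynomial.X (Sum.inl i) - 1, MvPolynomial.X (Sum.inl j), MvPolynomial.X (Sum.inr i),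
      MvPolynomial.X (Sum.inr j) - 1} ∪
      Set.range (fun st : Fin r × k × k => MvPolynomial.bind₁ (g st.2.1 st.2.2) (F st.1))
  obtain ⟨y, hy⟩ := Pool.Agent.Helper66.QL.descend S (Sum.elim a b : Fin N ⊕ Fin N → κ) (by
    rintro f (hf | ⟨⟨c, s, t⟩, rfl⟩)
    · simp only [Set.mem_insert_iff, Set.mem_singleton_iff] at hf
      rcases hf with rfl | rfl | rfl | rfl
      · simp [hai]
      · simp [haj]
      · simp [hbi]
      · simp [hbj]
    · rw [MvPolynomial.aeval_bind₁, ← hab c s t]
      congr 1
      congr 1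
      funext l
      simp [g])
  have h1 : MvPolynomial.eval y (MvPolynomial.X (Sum.inl i) - 1) = 0 := hy _ (Or.inl (by simp))
  have h2 : MvPolynomial.eval y (MvPolynomial.X (Sum.inl j)) = 0 := hy _ (Or.inl (by simp))
  have h3 : MvPolynomial.eval y (MvPolynomial.X (Sum.inr i)) = 0 := hy _ (Or.inl (by simp))
  have h4 : MvPolynomial.eval y (MvPolynomial.X (Sum.inr j) - 1) = 0 := hy _ (Or.inl (by simp))
  rw [map_sub, MvPolynomial.eval_X, map_one, sub_eq_zero] at h1 h4
  rw [MvPolynomial.eval_X] at h2 h3
  refine ⟨fun l => y (Sum.inl l), fun l => y (Sum.inr l), ?_, ?_⟩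
  · rw [LinearIndependent.pair_iff]
    intro s t hst
    have e1 := congrFun hst i
    have e2 := congrFun hst j
    simp only [Pi.add_apply, Pi.smul_apply, smul_eq_mul, Pi.zero_apply, h1, h2, h3, h4] at e1 e2
    constructor
    · simpa using e1
    · simpa using e2
  · intro c s t
    have h5 := hy _ (Or.inr ⟨(c, s, t), rfl⟩)
    have h6 : MvPolynomial.eval y (MvPolynomial.bind₁ (g s t) (F c)) =
        MvPolynomial.eval (fun l => MvPolynomial.eval y (g s t l)) (F c) := by
      show MvPolynomial.eval₂Hom (RingHom.id k) y (MvPolynomial.bind₁ (g s t) (F c)) = _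
      rw [MvPolynomial.eval₂Hom_bind₁]
      rfl
    rw [← h5]
    show _ = MvPolynomial.eval y (MvPolynomial.bind₁ (g s t) (F c))
    rw [h6]
    congr 1
    congr 1
    funext l
    simp [g]

end Pool.Agent.Helper11.LS
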